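import Pool.Agent.helper53.SP4.Spec2

/-!
# Project SP4, row S5A (helper79): the map induced on vectors by an automorphism which preserves transvections
-/

set_option autoImplicit false

namespace Pool.Agent.SP4

open Pool.Agent.GS

theorem S5A_B_add {F : Type} [Field F] (u v w : Fin 4 → F) (c : F) : B u (w + c • v) = B u w + c * B u v := by
  unfold B
  simp only [Pi.add_apply, Pi.smul_apply, smul_eq_mul]
  ring

theorem S5A_B_smul {F : Type} [Field F] (u v : Fin 4 → F) (c d : F) : B (c • u) (d • v) = c * d * B u v := by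
  unfold B
  simp only [Pi.smul_apply, smul_eq_mul]
  ring

theorem S5A_B_smul_left {F : Type} [Field F] (u v : Fin 4 → F) (c : F) : B (c • u) v = c * B u v := by
  unfold B
  simp only [Pi.smul_apply, smul_eq_mul]
  ring

/-- three squares -/
theorem S5A_three {F : Type} [Field F] [CharP F 2] (p q w : Fin 4 → F) (h : ∀ z, B p z • p + B q z • q = B w z • w) : w = p + q := by
  have key : ∀ i, (p i + q i) ^ 2 = w i ^ 2 → w i = p i + q i := by
    intro i hi
    have h1 : (p i + q i + w i) ^ 2 = 0 := by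
      rw [CharTwo.add_sq, hi]
      exact CharTwo.add_self_eq_zero _
    have h2 : p i + q i + w i = 0 := pow_eq_zero_iff (two_ne_zero) |>.1 h1
    have h3 := CharTwo.add_eq_zero.1 h2
    exact h3.symm
  funext i
  refine key i ?_
  rw [CharTwo.add_sq]
  fin_cases i
  · have a := congrFun (h (Pi.single 3 1)) 0
    simp [B] at a
    change p 0 ^ 2 + q 0 ^ 2 = w 0 ^ 2
    rw [sq, sq, sq]
    exact a
  · have a := congrFun (h (Pi.single 2 1)) 1
    simp [B] at a
    change p 1 ^ 2 + q 1 ^ 2 = w 1 ^ 2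
    rw [sq, sq, sq]
    exact a
  · have a := congrFun (h (Pi.single 1 1)) 2
    simp [B] at a
    change p 2 ^ 2 + q 2 ^ 2 = w 2 ^ 2
    rw [sq, sq, sq]
    exact a
  · have a := congrFun (h (Pi.single 0 1)) 3
    simp [B] at a
    change p 3 ^ 2 + q 3 ^ 2 = w 3 ^ 2
    rw [sq, sq, sq]
    exact a

theorem S5A (hS4B : S4B_stmt) : S5A_stmt := by
  classical
  intro F _ _ _ y hy
  obtain ⟨b1, b2, b3, b4, bT, bA, bC, bconj, buniq, bTinj, bcen, bPl⟩ := hS4B F
  choose T hT hT2 using bT
  have hmul : ∀ (g h : SG F) (w : Fin 4 → F), ((g * h : SG F) : (Fin 4 → F) ≃ₗ[F] (Fin 4 → F)) w =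
      (g : (Fin 4 → F) ≃ₗ[F] (Fin 4 → F)) ((h : (Fin 4 → F) ≃ₗ[F] (Fin 4 → F)) w) := fun g h w => rfl
  have hT1 : IsT (0 : Fin 4 → F) (1 : SG F) := by
    intro w
    have e : ((1 : SG F) : (Fin 4 → F) ≃ₗ[F] (Fin 4 → F)) w = w := rfl
    rw [e, smul_zero, add_zero]
  have h01 : ∀ t : SG F, IsT 0 t → t = 1 := fun t ht => (buniq 0 0 t 1).1 ht hT1
  have h10 : ∀ v : Fin 4 → F, IsT v (1 : SG F) → v = 0 := fun v hv => bTinj v 0 1 hv hT1
  -- the map
  let φ : (Fin 4 → F) → (Fin 4 → F) := fun v => if hv : v = 0 then 0 else (hy v (T v) hv (hT v)).choose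
  have key : ∀ v, IsT (φ v) (y (T v)) := by
    intro v
    by_cases hv : v = 0
    · have e1 : φ v = 0 := dif_pos hv
      have e2 : T v = 1 := h01 _ (by rw [← hv]; exact hT v)
      rw [e1, e2, map_one]
      exact hT1
    · have e1 : φ v = (hy v (T v) hv (hT v)).choose := dif_neg hv
      rw [e1]
      exact (hy v (T v) hv (hT v)).choose_spec
  have key' : ∀ (v : Fin 4 → F) (t : SG F), IsT v t → IsT (φ v) (y t) := by
    intro v t ht
    rw [(buniq v 0 t (T v)).1 ht (hT v)]
    exact key v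
  have hφT : ∀ v, T (φ v) = y (T v) := fun v => (buniq (φ v) 0 _ _).1 (hT _) (key v)
  have hφ0 : ∀ v, φ v = 0 ↔ v = 0 := by
    intro v
    constructor
    · intro h
      have a := key v
      rw [h] at a
      have a2 : T v = 1 := y.injective ((h01 _ a).trans (map_one y).symm)
      exact h10 v (by rw [← a2]; exact hT v)
    · intro h
      exact dif_pos h
  have hequiv : ∀ (g : SG F) (v : Fin 4 → F), ((y g : SG F) : (Fin 4 → F) ≃ₗ[F] (Fin 4 → F)) (φ v) =
      φ ((g : (Fin 4 → F) ≃ₗ[F] (Fin 4 → F)) v) := by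
    intro g v
    have a1 := (bconj g (T v) v 0).1 (hT v)
    have a2 := key' _ _ a1
    rw [map_mul, map_mul, map_inv] at a2
    have a3 := (bconj (y g) (y (T v)) (φ v) 0).1 (key v)
    exact bTinj _ _ _ a3 a2
  have hinj : Function.Injective φ := by
    intro v v' h
    have a := hφT v
    rw [h, hφT v'] at a
    have a2 : T v' = T v := y.injective a
    have a3 := hT v'
    rw [a2] at a3
    exact bTinj _ _ _ (hT v) a3
  have hsurj : Function.Surjective φ := Finite.injective_iff_surjective.1 hinj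
  have hcomm : ∀ u v : Fin 4 → F, T u * T v = T v * T u ↔ B u v = 0 := by
    intro u v
    have a1 := (bconj (T u) (T v) v 0).1 (hT v)
    rw [hT u v] at a1
    constructor
    · intro h
      have e : T u * T v * (T u)⁻¹ = T v := by rw [h, mul_inv_cancel_right]
      rw [e] at a1
      have a2 := bTinj _ _ _ a1 (hT v)
      have a3 : B u v • u = 0 := by
        have := a2
        rwa [add_eq_left] at this
      rcases smul_eq_zero.1 a3 with h0 | h0
      · exact h0
      · rw [h0]
        unfold B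
        simp
    · intro h
      rw [h, zero_smul, add_zero] at a1
      have e := (buniq v 0 _ _).1 a1 (hT v)
      exact mul_inv_eq_iff_eq_mul.1 e
  have hB0 : ∀ u v, B u v = 0 ↔ B (φ u) (φ v) = 0 := by
    intro u v
    rw [← hcomm u v, ← hcomm (φ u) (φ v), hφT, hφT, ← map_mul, ← map_mul]
    exact y.injective.eq_iff.symm
  have h4 : ∀ u v, φ (v + B u v • u) = φ v + B (φ u) (φ v) • φ u := by
    intro u v
    rw [← hT u v, ← hequiv, ← hφT u, hT (φ u) (φ v)]
  -- products on a line
  have hline : ∀ (a b : F) (u z : Fin 4 → F), B (φ (a • u)) z • φ (a • u) + B (φ (b • u)) z • φ (b • u) =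
      B (φ ((a + b) • u)) z • φ ((a + b) • u) := by
    intro a b u z
    have hab : IsT ((a + b) • u) (T (a • u) * T (b • u)) := by
      intro w
      rw [hmul, hT (b • u) w, hT (a • u), S5A_B_add, S5A_B_smul, S5A_B_smul_left, S5A_B_smul_left, S5A_B_smul_left, b1 u]
      funext i
      simp only [Pi.add_apply, Pi.smul_apply, smul_eq_mul]
      have h2 : (2 : F) = 0 := CharTwo.two_eq_zero
      linear_combination (-(a * b * B u w * u i)) * h2
    have c1 := key' _ _ hab
    rw [map_mul, ← hφT, ← hφT] at c1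
    have c2 := c1 z
    rw [hmul, hT (φ (b • u)) z, hT (φ (a • u)), S5A_B_add] at c2
    have c3 : B (φ (a • u)) (φ (b • u)) = 0 := by
      rw [← hB0, S5A_B_smul, b1 u, mul_zero]
    rw [c3, mul_zero, add_zero, add_assoc] at c2
    have c4 := add_left_cancel c2
    rw [← c4, add_comm]
  have hadd : ∀ (a b : F) (u : Fin 4 → F), φ ((a + b) • u) = φ (a • u) + φ (b • u) := fun a b u =>
    S5A_three _ _ _ (hline a b u)
  refine ⟨φ, hsurj, hφ0, hB0, h4, hadd, ?_, hequiv⟩
  intro a u
  by_cases hu : u = 0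
  · refine ⟨0, ?_⟩
    rw [hu, smul_zero, (hφ0 0).2 rfl, smul_zero]
  · have hp : φ u ≠ 0 := fun h => hu ((hφ0 u).1 h)
    obtain ⟨z, hz⟩ : ∃ z, B (φ u) z ≠ 0 := by
      by_contra hcon
      push Not at hcon
      exact hp (b3 _ hcon)
    have c1 := hline 1 a u z
    rw [hadd 1 a u, one_smul] at c1
    refine ⟨(B (φ u) z)⁻¹ * B (φ (a • u)) z, ?_⟩
    have c2 : B (φ u + φ (a • u)) z = B (φ u) z + B (φ (a • u)) z := by
      unfold B
      simp only [Pi.add_apply]
      ring
    rw [c2] at c1
    funext i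
    have c3 := congrFun c1 i
    simp only [Pi.add_apply, Pi.smul_apply, smul_eq_mul] at c3 ⊢
    have h2 : (2 : F) = 0 := CharTwo.two_eq_zero
    have c4 : B (φ u) z * φ (a • u) i = B (φ (a • u)) z * φ u i := by
      linear_combination -c3 - (B (φ (a • u)) z * φ u i) * h2
    field_simp
    rw [mul_comm, c4]

end Pool.Agent.SP4
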